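import Pool.Agent.V11250.PPCons

/-!
# MP_8f9fef_lc: a countable family of obstructions to pp-constructibility from `P₂`
-/

set_option autoImplicit false

namespace Pool.Agent.Results.MP_8f9fef_lc.CountableObstructions

open Pool.Agent.V11250.PPDefs

/-- There is a countable family `C 0, C 1, …` of finite structures with finite signatures such
that, for every structure `B` with a finite domain (its signature may even be infinite), `B` has no
pp-construction from `P₂` if and only if at least one `C i` has a pp-construction from `B`. -/
theorem result : ∃ C : ℕ → FStr, (∀ i, Finite (C i).I) ∧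
    ∀ B : FStr, ¬ PPConstructible B P2 ↔ ∃ i, PPConstructible (C i) B := by
  -- the codes of the obstructions
  let O : Set Code := {c | ¬ PPConstructible (decode c) P2}
  have hne : Nonempty O := by
    obtain ⟨c, h1, h2⟩ := exists_code K3 (inferInstanceAs (Finite Unit))
    exact ⟨⟨c, fun h => not_K3 (h2.trans h)⟩⟩
  obtain ⟨f, hf⟩ := exists_surjective_nat O
  refine ⟨fun i => decode (f i).1, fun i => ?_, fun B => ⟨fun hB => ?_, ?_⟩⟩
  · show Finite (Fin _)
    infer_instance
  · -- some finite reduct is an obstruction
    have h1 : ∃ F : Set B.I, F.Finite ∧ ¬ PPConstructible (B.reduct F) P2 := by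
      by_contra hcon
      push Not at hcon
      exact hB (compactness P2 B hcon)
    obtain ⟨F, hF, h2⟩ := h1
    have hFf : Finite (B.reduct F).I := hF
    obtain ⟨c, h3, h4⟩ := exists_code (B.reduct F) hFf
    have hc : c ∈ O := fun h => h2 (h4.trans h)
    obtain ⟨i, hi⟩ := hf ⟨c, hc⟩
    refine ⟨i, ?_⟩
    show PPConstructible (decode (f i).1) B
    rw [hi]
    exact h3.trans (reduct_constructible B F)
  · rintro ⟨i, hi⟩ hB
    exact (f i).2 (hi.trans hB)

end Pool.Agent.Results.MP_8f9fef_lc.CountableObstructions
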